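import Mathlib

/-!
# Power mean of order -2 of critical-point distances: zeros which are not close to `a`

Notation: `n = m + 1`, `p = (X - a) ∏ (X - z j)`, `p' = n ∏ (X - w k)`. With `u j = 1 / (a - z j)` and
`v k = 1 / (a - w k)` one has `∑ v ^ 2 = (∑ u) ^ 2 + 3 ∑ u ^ 2`, and `|z j| ≤ 1` says that
`2 a Re u + (1 - a ^ 2) |u| ^ 2 ≥ 1`. If `D = ∑ (1 - |u| ^ 2) > 0`, this gives
`|∑ u| ^ 2 ≥ D (m - D)`, and with the inequality of Cauchy and Schwarz
`∑ |v| ^ 2 ≥ ((1 + 6 / m) D - 3) (m - D)`. If `|p'(a)| ≤ n`, then `∑ |v| ^ 2 ≥ m` directly; otherwise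
`∏ |a - z j| > n`, and this bounds `D` from below.
-/

set_option autoImplicit false

namespace Pool.Agent.Results.MP_f0bc87_an.ZerosNotClose

open Polynomial

/-- Values at `x` of a monic polynomial with given roots and of its first two derivatives. -/
theorem mdata (x : ℂ) (s : Multiset ℂ) (h : ∀ w ∈ s, x - w ≠ 0) :
    ((s.map fun w => X - C w).prod).eval x ≠ 0 ∧
    (derivative (s.map fun w => X - C w).prod).eval x =
        ((s.map fun w => X - C w).prod).eval x * (s.map fun w => (x - w)⁻¹).sum ∧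
      (derivative (derivative (s.map fun w => X - C w).prod)).eval x =
        ((s.map fun w => X - C w).prod).eval x *
          ((s.map fun w => (x - w)⁻¹).sum ^ 2 - (s.map fun w => ((x - w)⁻¹) ^ 2).sum) ∧
      ‖(s.map fun w => ((x - w)⁻¹) ^ 2).sum‖ ≤ (s.map fun w => (‖w - x‖ ^ 2)⁻¹).sum ∧
      (Multiset.card s : ℝ) - 2 * Real.log ‖((s.map fun w => X - C w).prod).eval x‖ ≤
        (s.map fun w => (‖w - x‖ ^ 2)⁻¹).sum := by
  induction s using Multiset.induction_on with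
  | empty => simp
  | cons i s ih =>
    obtain ⟨h0, h1, h2, h3, h4⟩ := ih fun j hj => h j (Multiset.mem_cons_of_mem hj)
    have hy := h i (Multiset.mem_cons_self i s)
    simp only [Multiset.map_cons, Multiset.prod_cons, Multiset.sum_cons, Multiset.card_cons]
    have hn : ‖i - x‖ = ‖x - i‖ := norm_sub_rev i x
    have hpos : 0 < ‖x - i‖ := norm_pos_iff.mpr hy
    refine ⟨?_, ?_, ?_, ?_, ?_⟩
    · rw [eval_mul]
      refine mul_ne_zero ?_ h0
      simpa using hy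
    · rw [derivative_mul, eval_add, eval_mul, eval_mul, h1]
      simp only [derivative_sub, derivative_X, derivative_C, sub_zero, eval_one, one_mul, eval_sub,
        eval_X, eval_C, eval_mul]
      field_simp
    · rw [derivative_mul, derivative_add, derivative_mul, derivative_mul]
      simp only [derivative_sub, derivative_X, derivative_C, sub_zero, derivative_one, zero_mul,
        one_mul, eval_add, eval_mul, eval_sub, eval_X, eval_C, h1, h2, zero_add]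
      field_simp
      ring
    · refine (norm_add_le _ _).trans (add_le_add ?_ h3)
      rw [hn, norm_pow, norm_inv, inv_pow]
    · rw [eval_mul, norm_mul, Real.log_mul (by simpa using hy) (by simpa using h0)]
      have e1 := Real.log_le_sub_one_of_pos (x := (‖x - i‖ ^ 2)⁻¹) (by positivity)
      rw [Real.log_inv, Real.log_pow] at e1
      rw [hn]
      simp only [eval_sub, eval_X, eval_C]
      push_cast at e1 ⊢
      linarith

/-- The data of the critical points expressed through those of the zeros. -/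
theorem key (m : ℕ) (a : ℂ) (z : Fin m → ℂ)
    (hR : a ∉ (derivative ((X - C a) * ∏ j, (X - C (z j)))).roots) :
    (∀ j, a - z j ≠ 0) ∧
    ‖(∑ j, (a - z j)⁻¹) ^ 2 + 3 * ∑ j, ((a - z j)⁻¹) ^ 2‖ ≤
      (((derivative ((X - C a) * ∏ j, (X - C (z j)))).roots).map
          (fun w : ℂ => (‖w - a‖ ^ 2)⁻¹)).sum ∧
    (m : ℝ) - 2 * (Real.log (∏ j, ‖a - z j‖) - Real.log (m + 1)) ≤
      (((derivative ((X - C a) * ∏ j, (X - C (z j)))).roots).map
          (fun w : ℂ => (‖w - a‖ ^ 2)⁻¹)).sum := by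
  set Q : ℂ[X] := ∏ j, (X - C (z j)) with hQ
  set R : ℂ[X] := derivative ((X - C a) * Q) with hRdef
  have hQm : Q.Monic := monic_prod_of_monic _ _ fun j _ => monic_X_sub_C (z j)
  have hQd : Q.natDegree = m := by
    rw [hQ, natDegree_prod_of_monic _ _ fun j _ => monic_X_sub_C (z j)]
    simp
  have hpm : ((X - C a) * Q).Monic := (monic_X_sub_C a).mul hQm
  have hpd : ((X - C a) * Q).natDegree = m + 1 := by
    rw [(monic_X_sub_C a).natDegree_mul hQm, natDegree_X_sub_C, hQd]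
    ring
  have hRc : R.coeff m = (m : ℂ) + 1 := by
    rw [hRdef, coeff_derivative, ← hpd, hpm.coeff_natDegree, one_mul]
  have hm1 : (m : ℂ) + 1 ≠ 0 := by exact_mod_cast Nat.succ_ne_zero m
  have hR0 : R ≠ 0 := by
    intro h0
    rw [h0, coeff_zero] at hRc
    exact hm1 hRc.symm
  have hRd : R.natDegree = m := by
    apply le_antisymm
    · have := natDegree_derivative_le ((X - C a) * Q)
      rw [hpd] at this
      exact this
    · exact le_natDegree_of_ne_zero (by rw [hRc]; exact hm1)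
  have hRl : R.leadingCoeff = (m : ℂ) + 1 := by
    rw [leadingCoeff, hRd, hRc]
  have hRev : R.eval a = Q.eval a := by
    rw [hRdef, derivative_mul]
    simp
  have hRev1 : (derivative R).eval a = 2 * (derivative Q).eval a := by
    rw [hRdef, derivative_mul, derivative_add, derivative_mul, derivative_mul]
    simp
    ring
  have hRev2 : (derivative (derivative R)).eval a = 3 * (derivative (derivative Q)).eval a := by
    rw [hRdef]
    simp [derivative_mul]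
    ring
  have hQa : Q.eval a ≠ 0 := by
    rw [← hRev]
    intro h0
    exact hR ((mem_roots hR0).mpr h0)
  have hz : ∀ j, a - z j ≠ 0 := by
    intro j h0
    apply hQa
    rw [hQ, eval_prod]
    apply Finset.prod_eq_zero (Finset.mem_univ j)
    simpa using h0
  have hw : ∀ w ∈ R.roots, a - w ≠ 0 := by
    intro w hw h0
    apply hR
    rw [sub_eq_zero] at h0
    rw [h0]
    exact hw
  have hsp : R = C R.leadingCoeff * (R.roots.map (X - C ·)).prod :=
    (IsAlgClosed.splits R).eq_prod_roots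
  have hcard : Multiset.card R.roots = m := by
    rw [← hRd]
    exact IsAlgClosed.card_roots_eq_natDegree
  have hQs : Q = ((Finset.univ.val.map z).map fun w => X - C w).prod := by
    rw [Multiset.map_map]
    rfl
  obtain ⟨a0, a1, a2, -, -⟩ := mdata a (Finset.univ.val.map z) (by
    intro w hw
    obtain ⟨j, -, rfl⟩ := Multiset.mem_map.mp hw
    exact hz j)
  rw [← hQs] at a0 a1 a2
  rw [Multiset.map_map] at a1 a2
  rw [Multiset.map_map] at a2
  obtain ⟨b0, b1, b2, b3, b4⟩ := mdata a R.roots hw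
  set W : ℂ[X] := (R.roots.map fun w => X - C w).prod with hW
  have hspl : R = C ((m : ℂ) + 1) * W := by
    rw [← hRl]
    exact hsp
  have c0 : Q.eval a = ((m : ℂ) + 1) * W.eval a := by
    rw [← hRev]
    conv_lhs => rw [hspl]
    simp
  have c1 : 2 * (derivative Q).eval a = ((m : ℂ) + 1) * (derivative W).eval a := by
    rw [← hRev1]
    conv_lhs => rw [hspl]
    simp
  have c2 : 3 * (derivative (derivative Q)).eval a =
      ((m : ℂ) + 1) * (derivative (derivative W)).eval a := by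
    rw [← hRev2]
    conv_lhs => rw [hspl]
    simp
  change (derivative Q).eval a = Q.eval a * ∑ j, (a - z j)⁻¹ at a1
  change (derivative (derivative Q)).eval a =
    Q.eval a * ((∑ j, (a - z j)⁻¹) ^ 2 - ∑ j, ((a - z j)⁻¹) ^ 2) at a2
  set s1 : ℂ := ∑ j, (a - z j)⁻¹ with hs1
  set s2 : ℂ := ∑ j, ((a - z j)⁻¹) ^ 2 with hs2
  set v1 : ℂ := (R.roots.map fun w => (a - w)⁻¹).sum with hv1
  set v2 : ℂ := (R.roots.map fun w => ((a - w)⁻¹) ^ 2).sum with hv2
  have d1 : v1 = 2 * s1 := by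
    rw [a1, b1, ← mul_assoc, ← mul_assoc, ← c0] at c1
    apply mul_left_cancel₀ hQa
    rw [← c1]
    ring
  have d2 : v2 = s1 ^ 2 + 3 * s2 := by
    rw [a2, b2, ← mul_assoc, ← mul_assoc, ← c0, d1] at c2
    have : 3 * (s1 ^ 2 - s2) = (2 * s1) ^ 2 - v2 := by
      apply mul_left_cancel₀ hQa
      rw [← c2]
      ring
    linear_combination this
  refine ⟨hz, ?_, ?_⟩
  · rw [← d2]
    exact b3
  · rw [hcard] at b4
    have e1 : ∏ j, ‖a - z j‖ = ((m : ℝ) + 1) * ‖W.eval a‖ := by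
      rw [← norm_prod]
      have : ∏ j, (a - z j) = Q.eval a := by
        rw [hQ, eval_prod]
        simp
      rw [this, c0, norm_mul]
      congr 1
      have : ((m : ℂ) + 1) = ((m + 1 : ℕ) : ℂ) := by push_cast; ring
      rw [this, Complex.norm_natCast]
      push_cast
      ring
    rw [e1, Real.log_mul (by positivity) (by simpa using b0)]
    linarith

/-- The quadratic estimate for the sums of the first and second powers. -/
theorem quad (m : ℕ) (u : Fin m → ℂ) :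
    ((m : ℝ) + 6) * ‖∑ j, u j‖ ^ 2 - 3 * m * ∑ j, ‖u j‖ ^ 2 ≤
      m * ‖(∑ j, u j) ^ 2 + 3 * ∑ j, (u j) ^ 2‖ := by
  set s : ℂ := ∑ j, u j with hs
  set T : ℝ := ∑ j, ‖u j‖ ^ 2 with hT
  have hT0 : 0 ≤ T := Finset.sum_nonneg fun j _ => by positivity
  rcases eq_or_ne s 0 with h0 | h0
  · rw [h0, norm_zero]
    have h1 : 0 ≤ 3 * (m : ℝ) * T := by positivity
    have h2 : 0 ≤ (m : ℝ) * ‖(0 : ℂ) ^ 2 + 3 * ∑ j, (u j) ^ 2‖ := by positivity
    nlinarith
  · have hpos : 0 < ‖s‖ ^ 2 := by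
      have := norm_pos_iff.mpr h0
      positivity
    have hcs : starRingEnd ℂ s * s = ((‖s‖ ^ 2 : ℝ) : ℂ) := by
      rw [Complex.conj_mul']
      push_cast
      ring
    have e1 : (starRingEnd ℂ s ^ 2 * (s ^ 2 + 3 * ∑ j, (u j) ^ 2)).re ≤
        ‖s‖ ^ 2 * ‖s ^ 2 + 3 * ∑ j, (u j) ^ 2‖ := by
      refine (Complex.re_le_norm _).trans ?_
      rw [norm_mul, norm_pow, Complex.norm_conj]
    have e2 : starRingEnd ℂ s ^ 2 * (s ^ 2 + 3 * ∑ j, (u j) ^ 2) =
        ((‖s‖ ^ 4 : ℝ) : ℂ) + ∑ j, 3 * (starRingEnd ℂ s * u j) ^ 2 := by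
      have h4 : starRingEnd ℂ s ^ 2 * s ^ 2 = ((‖s‖ ^ 4 : ℝ) : ℂ) := by
        rw [← mul_pow, hcs]
        push_cast
        ring
      rw [mul_add, h4]
      congr 1
      simp only [Finset.mul_sum]
      exact Finset.sum_congr rfl fun j _ => by ring
    have e3 : (starRingEnd ℂ s ^ 2 * (s ^ 2 + 3 * ∑ j, (u j) ^ 2)).re =
        ‖s‖ ^ 4 + (6 * ∑ j, (starRingEnd ℂ s * u j).re ^ 2 - 3 * ‖s‖ ^ 2 * T) := by
      rw [e2, Complex.add_re, Complex.ofReal_re, Complex.re_sum, hT, Finset.mul_sum,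
        Finset.mul_sum, ← Finset.sum_sub_distrib]
      congr 1
      refine Finset.sum_congr rfl fun j _ => ?_
      have h5 : ‖starRingEnd ℂ s * u j‖ ^ 2 = ‖s‖ ^ 2 * ‖u j‖ ^ 2 := by
        rw [norm_mul, Complex.norm_conj]
        ring
      have h6 : ‖starRingEnd ℂ s * u j‖ ^ 2 = (starRingEnd ℂ s * u j).re * (starRingEnd ℂ s * u j).re +
          (starRingEnd ℂ s * u j).im * (starRingEnd ℂ s * u j).im := by
        rw [← Complex.normSq_eq_norm_sq, Complex.normSq_apply]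
      generalize hw : starRingEnd ℂ s * u j = w at *
      have h7 : (3 * w ^ 2).re = 3 * (w.re * w.re - w.im * w.im) := by
        simp [sq]
      rw [h7, mul_assoc 3 (‖s‖ ^ 2), ← h5, h6]
      ring
    have e4 : (∑ j, (starRingEnd ℂ s * u j).re) = ‖s‖ ^ 2 := by
      rw [← Complex.re_sum, ← Finset.mul_sum, ← hs, hcs, Complex.ofReal_re]
    have e5 : (∑ j, (starRingEnd ℂ s * u j).re) ^ 2 ≤
        (m : ℝ) * ∑ j, (starRingEnd ℂ s * u j).re ^ 2 := by
      have := sq_sum_le_card_mul_sum_sq (s := (Finset.univ : Finset (Fin m)))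
        (f := fun j => (starRingEnd ℂ s * u j).re)
      simpa using this
    rw [e4] at e5
    rw [e3] at e1
    have hm0 : (0 : ℝ) ≤ m := Nat.cast_nonneg m
    have e6 := mul_le_mul_of_nonneg_left e1 hm0
    refine le_of_mul_le_mul_left ?_ hpos
    nlinarith

/-- The contribution of one zero. -/
theorem one_zero (a : ℝ) (z : ℂ) (hz : ‖z‖ ≤ 1) (h : (a : ℂ) - z ≠ 0) :
    1 - (1 - a ^ 2) * (‖z - a‖ ^ 2)⁻¹ ≤ 2 * a * (((a : ℂ) - z)⁻¹).re := by
  have hpos : 0 < ‖(a : ℂ) - z‖ := norm_pos_iff.mpr h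
  have hsq : ‖(a : ℂ) - z‖ ^ 2 = a ^ 2 - 2 * a * z.re + ‖z‖ ^ 2 := by
    rw [← Complex.normSq_eq_norm_sq, ← Complex.normSq_eq_norm_sq, Complex.normSq_apply,
      Complex.normSq_apply]
    simp
    ring
  rw [norm_sub_rev z a, Complex.inv_re, Complex.normSq_eq_norm_sq]
  have h2 : (0 : ℝ) < ‖(a : ℂ) - z‖ ^ 2 := by positivity
  have hre : ((a : ℂ) - z).re = a - z.re := by simp
  rw [hre]
  have h1 : ‖z‖ ^ 2 ≤ 1 := by nlinarith [norm_nonneg z]
  have : 1 - (1 - a ^ 2) * (‖(a : ℂ) - z‖ ^ 2)⁻¹ - 2 * a * ((a - z.re) / ‖(a : ℂ) - z‖ ^ 2) =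
      (‖z‖ ^ 2 - 1) / ‖(a : ℂ) - z‖ ^ 2 := by
    field_simp
    rw [hsq]
    ring
  have h3 : (‖z‖ ^ 2 - 1) / ‖(a : ℂ) - z‖ ^ 2 ≤ 0 :=
    div_nonpos_of_nonpos_of_nonneg (by linarith) h2.le
  linarith

/-- The main estimate, with `D = m - ∑ |z j - a| ^ (-2)`. -/
theorem main_estimate (m : ℕ) (a : ℝ) (ha0 : 0 ≤ a) (z : Fin m → ℂ)
    (hz : ∀ j, ‖z j‖ ≤ 1) (hD : 0 < (m : ℝ) - ∑ j, (‖z j - a‖ ^ 2)⁻¹)
    (hR : (a : ℂ) ∉ (derivative ((X - C (a : ℂ)) * ∏ j, (X - C (z j)))).roots) :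
    (((m : ℝ) + 6) * ((m : ℝ) - ∑ j, (‖z j - a‖ ^ 2)⁻¹) - 3 * m) * ∑ j, (‖z j - a‖ ^ 2)⁻¹ ≤
      m * (((derivative ((X - C (a : ℂ)) * ∏ j, (X - C (z j)))).roots).map
          (fun w : ℂ => (‖w - (a : ℂ)‖ ^ 2)⁻¹)).sum := by
  obtain ⟨h1, h2, -⟩ := key m (a : ℂ) z hR
  refine le_trans ?_ (mul_le_mul_of_nonneg_left h2 (Nat.cast_nonneg m))
  refine le_trans ?_ (quad m fun j => ((a : ℂ) - z j)⁻¹)
  have hT' : ∑ j, ‖((a : ℂ) - z j)⁻¹‖ ^ 2 = ∑ j, (‖z j - a‖ ^ 2)⁻¹ := by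
    refine Finset.sum_congr rfl fun j _ => ?_
    rw [norm_inv, inv_pow, norm_sub_rev]
  rw [hT']
  set T : ℝ := ∑ j, (‖z j - a‖ ^ 2)⁻¹ with hT
  have hT0 : 0 ≤ T := Finset.sum_nonneg fun j _ => by positivity
  set s1 : ℂ := ∑ j, ((a : ℂ) - z j)⁻¹ with hs1
  have e1 : (m : ℝ) - (1 - a ^ 2) * T ≤ 2 * a * s1.re := by
    have : ∑ j : Fin m, (1 - (1 - a ^ 2) * (‖z j - a‖ ^ 2)⁻¹) ≤
        ∑ j, 2 * a * (((a : ℂ) - z j)⁻¹).re :=
      Finset.sum_le_sum fun j _ => one_zero a (z j) (hz j) (h1 j)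
    rw [Finset.sum_sub_distrib, ← Finset.mul_sum, ← Finset.mul_sum, ← hT] at this
    rw [hs1, Complex.re_sum]
    simpa using this
  have e3 : ((m : ℝ) - T) * T ≤ s1.re ^ 2 := by
    have hapos : 0 < a := by
      rcases ha0.lt_or_eq with h | h
      · exact h
      · rw [← h] at e1
        nlinarith
    have h4 : 0 ≤ ((m : ℝ) - T) + a ^ 2 * T := by positivity
    have h5 : (((m : ℝ) - T) + a ^ 2 * T) ^ 2 ≤ (2 * a * s1.re) ^ 2 := by
      apply pow_le_pow_left₀ h4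
      linarith
    have h6 : 4 * a ^ 2 * (((m : ℝ) - T) * T) ≤ 4 * a ^ 2 * s1.re ^ 2 := by
      nlinarith [sq_nonneg (((m : ℝ) - T) - a ^ 2 * T)]
    have h7 : 0 < 4 * a ^ 2 := by positivity
    exact le_of_mul_le_mul_left h6 h7
  have e4 : s1.re ^ 2 ≤ ‖s1‖ ^ 2 := by
    rw [← sq_abs s1.re]
    exact pow_le_pow_left₀ (abs_nonneg _) (Complex.abs_re_le_norm s1) 2
  have e7 : ((m : ℝ) + 6) * (((m : ℝ) - T) * T) ≤ ((m : ℝ) + 6) * ‖s1‖ ^ 2 :=
    mul_le_mul_of_nonneg_left (e3.trans e4) (by positivity)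
  linarith

/-- A chord of the logarithm: `-log y ≤ (8 / 3) log 2 · max (1 - y) 0` for `y ≥ 1 / 4`. -/
theorem chord (y : ℝ) (hy : 1 / 4 ≤ y) : -Real.log y ≤ 8 / 3 * Real.log 2 * max (1 - y) 0 := by
  have hl2 : 0 < Real.log 2 := Real.log_pos (by norm_num)
  rcases le_total 1 y with h | h
  · have h1 : 0 ≤ Real.log y := Real.log_nonneg h
    have h2 : 0 ≤ 8 / 3 * Real.log 2 * max (1 - y) 0 := by positivity
    linarith
  · have hc := strictConcaveOn_log_Ioi.concaveOn.2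
      (show (1 / 4 : ℝ) ∈ Set.Ioi (0 : ℝ) by rw [Set.mem_Ioi]; norm_num)
      (show (1 : ℝ) ∈ Set.Ioi (0 : ℝ) by rw [Set.mem_Ioi]; norm_num)
      (show 0 ≤ 4 / 3 * (1 - y) by linarith) (show 0 ≤ 1 - 4 / 3 * (1 - y) by linarith) (by ring)
    have e1 : (4 / 3 * (1 - y)) • (1 / 4 : ℝ) + (1 - 4 / 3 * (1 - y)) • (1 : ℝ) = y := by
      simp only [smul_eq_mul]
      ring
    have e2 : Real.log (1 / 4 : ℝ) = -(2 * Real.log 2) := by
      rw [one_div, Real.log_inv, show (4 : ℝ) = 2 ^ 2 by norm_num, Real.log_pow]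
      push_cast
      ring
    rw [e1, e2, Real.log_one] at hc
    simp only [smul_eq_mul] at hc
    rw [max_eq_left (by linarith)]
    linarith

/-- The last step: `D ≥ 4`, or `D ≥ 15 / 4` and `31 ≤ m ≤ 62`. -/
theorem last_step (m T S : ℝ) (hm : 0 ≤ m) (hT : m / 4 ≤ T)
    (hD : 4 ≤ m - T ∨ (15 / 4 ≤ m - T ∧ 31 ≤ m ∧ m ≤ 62))
    (h : ((m + 6) * (m - T) - 3 * m) * T ≤ m * S) : m ≤ S := by
  rcases hD with hD | ⟨hD, h31, h62⟩
  · have hm5 : 16 / 3 ≤ m := by linarith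
    have h1 : m * m ≤ ((m + 6) * (m - T) - 3 * m) * T := by
      nlinarith [mul_nonneg (sub_nonneg.mpr hD) (sub_nonneg.mpr hT),
        mul_nonneg (mul_nonneg (sub_nonneg.mpr hD) (sub_nonneg.mpr hT)) hm,
        mul_nonneg (sub_nonneg.mpr hD) (sub_nonneg.mpr hm5),
        mul_nonneg (mul_nonneg (sub_nonneg.mpr hD) (sub_nonneg.mpr hm5)) hm]
    exact le_of_mul_le_mul_left (h1.trans h) (by linarith)
  · have h1 : m * m ≤ ((m + 6) * (m - T) - 3 * m) * T := by
      nlinarith [mul_nonneg (sub_nonneg.mpr hD) (sub_nonneg.mpr hT),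
        mul_nonneg (mul_nonneg (sub_nonneg.mpr hD) (sub_nonneg.mpr hT)) hm,
        mul_nonneg (sub_nonneg.mpr hD) (sub_nonneg.mpr h31),
        mul_nonneg (mul_nonneg (sub_nonneg.mpr hD) (sub_nonneg.mpr h31)) hm,
        mul_nonneg (sub_nonneg.mpr h31) (sub_nonneg.mpr h62)]
    exact le_of_mul_le_mul_left (h1.trans h) (by linarith)

/-- With `n = m + 1`: the assertion holds if `∑ |z j - a| ^ (-2) ≤ n - 5`, and also if
`∑ max (|z j - a| ^ (-2) - 1, 0) ≤ (3 / 4) log₂ n - 4`, and if `n ≥ 32` and all `|z j - a| ≥ 1`. -/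
theorem result :
    ∀ (m : ℕ) (a : ℝ), 0 ≤ a → a ≤ 1 → ∀ z : Fin m → ℂ, (∀ j, ‖z j‖ ≤ 1) →
      (∑ j, (‖z j - a‖ ^ 2)⁻¹ ≤ (m : ℝ) - 4 ∨
        ∑ j, max ((‖z j - a‖ ^ 2)⁻¹ - 1) 0 ≤ 3 / 4 * Real.logb 2 ((m : ℝ) + 1) - 4 ∨
        (32 ≤ m + 1 ∧ ∀ j, 1 ≤ ‖z j - a‖)) →
      ((a : ℂ) ∈ (derivative ((X - C (a : ℂ)) * ∏ j, (X - C (z j)))).roots) ∨
      (m : ℝ) ≤ (((derivative ((X - C (a : ℂ)) * ∏ j, (X - C (z j)))).roots).map
          (fun w : ℂ => (‖w - (a : ℂ)‖ ^ 2)⁻¹)).sum := by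
  intro m a ha0 ha1 z hz hyp
  by_cases hR : (a : ℂ) ∈ (derivative ((X - C (a : ℂ)) * ∏ j, (X - C (z j)))).roots
  · exact Or.inl hR
  right
  obtain ⟨h1, -, h3⟩ := key m (a : ℂ) z hR
  have hpos : ∀ j, 0 < ‖(a : ℂ) - z j‖ := fun j => norm_pos_iff.mpr (h1 j)
  have hm0 : (0 : ℝ) ≤ m := Nat.cast_nonneg m
  have hy : ∀ j, 1 / 4 ≤ (‖z j - a‖ ^ 2)⁻¹ := by
    intro j
    have h4 : ‖(a : ℂ) - z j‖ ≤ 2 := by
      refine (norm_sub_le _ _).trans ?_
      have : ‖(a : ℂ)‖ ≤ 1 := by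
        rw [Complex.norm_real, Real.norm_eq_abs, abs_of_nonneg ha0]
        exact ha1
      linarith [hz j]
    rw [norm_sub_rev, one_div]
    apply inv_anti₀ (by have := hpos j; positivity)
    nlinarith [hpos j]
  have hT : (m : ℝ) / 4 ≤ ∑ j, (‖z j - a‖ ^ 2)⁻¹ := by
    have : ∑ j : Fin m, (1 / 4 : ℝ) ≤ ∑ j, (‖z j - a‖ ^ 2)⁻¹ :=
      Finset.sum_le_sum fun j _ => hy j
    rw [Finset.sum_const, Finset.card_univ, Fintype.card_fin, nsmul_eq_mul] at this
    linarith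
  have hbig : ∀ hD : 4 ≤ (m : ℝ) - ∑ j, (‖z j - a‖ ^ 2)⁻¹,
      (m : ℝ) ≤ (((derivative ((X - C (a : ℂ)) * ∏ j, (X - C (z j)))).roots).map
          (fun w : ℂ => (‖w - (a : ℂ)‖ ^ 2)⁻¹)).sum := fun hD =>
    last_step m _ _ hm0 hT (Or.inl hD) (main_estimate m a ha0 z hz (by linarith) hR)
  by_contra hcon
  push Not at hcon
  have hl2 : 0 < Real.log 2 := Real.log_pos (by norm_num)
  have hDE : 3 / 4 * Real.logb 2 ((m : ℝ) + 1) < (m : ℝ) - ∑ j, (‖z j - a‖ ^ 2)⁻¹ +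
      ∑ j, max ((‖z j - a‖ ^ 2)⁻¹ - 1) 0 := by
    have hlog : Real.log ((m : ℝ) + 1) < Real.log (∏ j, ‖(a : ℂ) - z j‖) := by linarith
    have hsum : 2 * Real.log (∏ j, ‖(a : ℂ) - z j‖) ≤
        8 / 3 * Real.log 2 * ((m : ℝ) - ∑ j, (‖z j - a‖ ^ 2)⁻¹ +
          ∑ j, max ((‖z j - a‖ ^ 2)⁻¹ - 1) 0) := by
      rw [Real.log_prod (fun j _ => (hpos j).ne')]
      have e1 : (m : ℝ) - ∑ j, (‖z j - a‖ ^ 2)⁻¹ + ∑ j, max ((‖z j - a‖ ^ 2)⁻¹ - 1) 0 =
          ∑ j, max (1 - (‖z j - a‖ ^ 2)⁻¹) 0 := by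
        have : (m : ℝ) = ∑ j : Fin m, (1 : ℝ) := by simp
        rw [this, ← Finset.sum_sub_distrib, ← Finset.sum_add_distrib]
        refine Finset.sum_congr rfl fun j _ => ?_
        rcases le_total ((‖z j - a‖ ^ 2)⁻¹) 1 with h | h
        · rw [max_eq_right (by linarith), max_eq_left (by linarith)]
          ring
        · rw [max_eq_left (by linarith), max_eq_right (by linarith)]
          ring
      rw [e1, Finset.mul_sum, Finset.mul_sum]
      refine Finset.sum_le_sum fun j _ => ?_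
      have e2 := chord _ (hy j)
      rw [Real.log_inv, Real.log_pow, norm_sub_rev] at e2
      rw [norm_sub_rev (z j) (a : ℂ)]
      push_cast at e2
      linarith
    have hlb : Real.log ((m : ℝ) + 1) = Real.logb 2 ((m : ℝ) + 1) * Real.log 2 := by
      rw [Real.logb, div_mul_cancel₀ _ hl2.ne']
    set T : ℝ := ∑ j, (‖z j - a‖ ^ 2)⁻¹ with hTdef
    set E : ℝ := ∑ j, max ((‖z j - a‖ ^ 2)⁻¹ - 1) 0 with hEdef
    have h7 : 2 * (Real.logb 2 ((m : ℝ) + 1) * Real.log 2) <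
        8 / 3 * Real.log 2 * ((m : ℝ) - T + E) := by
      rw [← hlb]
      linarith
    have h8 : (2 * Real.logb 2 ((m : ℝ) + 1)) * Real.log 2 <
        (8 / 3 * ((m : ℝ) - T + E)) * Real.log 2 := by linarith
    have h9 := lt_of_mul_lt_mul_right h8 hl2.le
    linarith
  rcases hyp with hle | hE | ⟨hm, hz1⟩
  · have := hbig (by linarith)
    linarith
  · have := hbig (by linarith)
    linarith
  · have h0 : ∑ j, max ((‖z j - a‖ ^ 2)⁻¹ - 1) 0 = 0 := by
      refine Finset.sum_eq_zero fun j _ => max_eq_right ?_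
      have h1' : (1 : ℝ) ≤ ‖z j - a‖ ^ 2 := one_le_pow₀ (hz1 j)
      have := inv_le_one_of_one_le₀ h1'
      linarith
    rw [h0, add_zero] at hDE
    have hmr : (32 : ℝ) ≤ (m : ℝ) + 1 := by exact_mod_cast hm
    rcases le_or_gt (m : ℝ) 62 with h62 | h62
    · have h5 : (5 : ℝ) ≤ Real.logb 2 ((m : ℝ) + 1) := by
        rw [Real.le_logb_iff_rpow_le (by norm_num) (by positivity)]
        norm_num
        linarith
      have := last_step m _ _ hm0 hT (Or.inr ⟨by linarith, by linarith, h62⟩)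
        (main_estimate m a ha0 z hz (by linarith) hR)
      linarith
    · have h63 : (63 : ℝ) ≤ m := by
        have h62' : 62 < m := by exact_mod_cast h62
        exact_mod_cast h62'
      have h6 : (6 : ℝ) ≤ Real.logb 2 ((m : ℝ) + 1) := by
        rw [Real.le_logb_iff_rpow_le (by norm_num) (by positivity)]
        norm_num
        linarith
      have := hbig (by linarith)
      linarith

end Pool.Agent.Results.MP_f0bc87_an.ZerosNotClose
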